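import Pool.Agent.Lib.MP_df705a_gt.Comb.A7

/-!
# Combable groups are fillable
-/

noncomputable section

namespace Pool.Agent.Lib.MP_df705a_gt.Comb

open Pool.Agent.Lib.MP_df705a_gt.SVS (IsLength)

variable {G : Type*}

/-- The exponents of the weights. -/
def QQ (p : ℕ) : ℕ → ℕ
  | 0 => 0
  | j + 1 => (p + 1) * (QQ p j + 1)

lemma QQ_mono (p : ℕ) : Monotone (QQ p) := by
  refine monotone_nat_of_le_succ fun j => ?_
  change QQ p j ≤ (p + 1) * (QQ p j + 1)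
  nlinarith [Nat.zero_le (p * (QQ p j + 1))]

/-- The scales. -/
def rr (κ : ℝ → ℝ) (K : ℝ) : ℕ → ℝ
  | 0 => 0
  | i + 1 => κ (rr κ K i) + K + rr κ K i

lemma rr_nonneg {κ : ℝ → ℝ} {K : ℝ} (hκ : ∀ r, 0 ≤ κ r) (hK : 0 ≤ K) (i : ℕ) : 0 ≤ rr κ K i := by
  induction i with
  | zero => exact le_rfl
  | succ i ih =>
    change 0 ≤ κ (rr κ K i) + K + rr κ K i
    have := hκ (rr κ K i)
    linarith

/-- Polynomials are bounded by exponentials. -/
lemma pow_le_exp (q : ℕ) {δ : ℝ} (hδ : 0 < δ) :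
    ∃ C : ℝ, 0 ≤ C ∧ ∀ x : ℝ, 0 ≤ x → (1 + x) ^ q ≤ C * Real.exp (δ * x) := by
  refine ⟨q.factorial / δ ^ q * Real.exp δ, by positivity, fun x hx => ?_⟩
  have h1 := Real.pow_div_factorial_le_exp (δ * (1 + x)) (by positivity) q
  rw [mul_pow, div_le_iff₀ (by positivity)] at h1
  have h2 : Real.exp (δ * (1 + x)) = Real.exp δ * Real.exp (δ * x) := by
    rw [← Real.exp_add]; congr 1; ring
  rw [h2] at h1
  have h3 : (0 : ℝ) < δ ^ q := by positivity
  have h4 : (1 + x) ^ q ≤ Real.exp δ * Real.exp (δ * x) * q.factorial / δ ^ q := by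
    rw [le_div_iff₀ h3]
    linarith
  refine h4.trans (le_of_eq ?_)
  field_simp

variable [Group G] {ℓ : G → ℝ} {σ : ℕ → G → G} {st : G → ℕ} {K : ℝ} {κ : ℝ → ℝ}

lemma wn_fs_le (H : Cb ℓ σ st K κ) (hℓ : IsLength ℓ) {A : ℝ} (hA : 0 ≤ A) {p : ℕ}
    (hst : ∀ g, st g ≤ ⌈A * (1 + ℓ g) ^ p⌉₊) (q : ℕ) {i : ℕ} (x : Fin (i + 1) → G) :
    wn (vs fun g => (1 + ℓ g) ^ q) (fs σ st x) ≤
      (i + 2) * (2 * i + 3) * (1 + K) ^ q * (A + 2) ^ (q + 1) *
        vs (fun g => (1 + ℓ g) ^ ((p + 1) * (q + 1))) x := by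
  obtain ⟨j₀, hj₀⟩ := Finite.exists_max fun j => ℓ (x j)
  set L := ℓ (x j₀) with hL
  have hL0 : 0 ≤ L := hℓ.nonneg _
  have hK := H.K0
  have hs : (sx st x : ℝ) ≤ A * (1 + L) ^ p + 1 := by
    have h1 : sx st x ≤ ⌈A * (1 + L) ^ p⌉₊ := by
      refine Finset.sup_le fun j _ => (hst (x j)).trans (Nat.ceil_mono ?_)
      have h2 : 1 + ℓ (x j) ≤ 1 + L := by linarith [hj₀ j]
      have h3 : 0 ≤ 1 + ℓ (x j) := by linarith [hℓ.nonneg (x j)]
      gcongr
    have h4 : (sx st x : ℝ) ≤ (⌈A * (1 + L) ^ p⌉₊ : ℝ) := by exact_mod_cast h1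
    exact h4.trans (Nat.ceil_lt_add_one (by positivity)).le
  set M : ℝ := (A + 2) * (1 + L) ^ (p + 1) with hM
  have hP : (1 : ℝ) ≤ (1 + L) ^ p := one_le_pow₀ (by linarith)
  have hP1 : (1 + L) ^ (p + 1) = (1 + L) ^ p * (1 + L) := pow_succ _ _
  have hsM : (sx st x : ℝ) ≤ M := by
    rw [hM, hP1]
    have h1 : (1 + L) ^ p ≤ (1 + L) ^ p * (1 + L) := by nlinarith
    nlinarith
  have hLM : 1 + L ≤ M := by
    rw [hM, hP1]
    have h1 : 1 + L ≤ (1 + L) ^ p * (1 + L) := by nlinarith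
    nlinarith
  have hM1 : 1 ≤ M := by linarith
  have h1 := wn_fs_one (σ := σ) (st := st) x
  have h2 : wn (fun _ => 1) (fs σ st x) ≤ (2 * i + 3) * M := by
    refine h1.trans ?_
    push_cast
    have hi : (0 : ℝ) ≤ i := Nat.cast_nonneg _
    nlinarith
  have h3 := H.mem_ball hℓ hL0 hj₀
  have h4 : ∀ y ∈ {y : Fin (i + 2) → G | ∀ j, ℓ (y j) ≤ K * sx st x + L},
      vs (fun g => (1 + ℓ g) ^ q) y ≤ (i + 2) * ((1 + K) * M) ^ q := by
    intro y hy
    have h5 : ∀ j ∈ (Finset.univ : Finset (Fin (i + 2))), (1 + ℓ (y j)) ^ q ≤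
        ((1 + K) * M) ^ q := by
      intro j _
      have h6 : 1 + ℓ (y j) ≤ (1 + K) * M := by
        have h7 : ℓ (y j) ≤ K * sx st x + L := hy j
        have h8 : K * (sx st x : ℝ) ≤ K * M := mul_le_mul_of_nonneg_left hsM hK
        nlinarith
      have h9 : 0 ≤ 1 + ℓ (y j) := by linarith [hℓ.nonneg (y j)]
      gcongr
    refine (Finset.sum_le_sum h5).trans ?_
    rw [Finset.sum_const, Finset.card_univ, Fintype.card_fin, nsmul_eq_mul]
    push_cast
    exact le_rfl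
  have h10 := wn_le_of_mem h4 h3
  refine h10.trans ?_
  have h11 : (1 + L) ^ ((p + 1) * (q + 1)) ≤ vs (fun g => (1 + ℓ g) ^ ((p + 1) * (q + 1))) x := by
    rw [vs]
    exact Finset.single_le_sum (f := fun j => (1 + ℓ (x j)) ^ ((p + 1) * (q + 1)))
      (fun j _ => by have := hℓ.nonneg (x j); positivity) (Finset.mem_univ j₀)
  have h12 : (0 : ℝ) ≤ (i + 2) * ((1 + K) * M) ^ q := by positivity
  refine (mul_le_mul_of_nonneg_left h2 h12).trans ?_
  have h13 : (i + 2) * ((1 + K) * M) ^ q * ((2 * i + 3) * M) =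
      (i + 2) * (2 * i + 3) * (1 + K) ^ q * (A + 2) ^ (q + 1) *
        (1 + L) ^ ((p + 1) * (q + 1)) := by
    rw [pow_mul, ← mul_assoc]
    have h14 : M ^ (q + 1) = (A + 2) ^ (q + 1) * ((1 + L) ^ (p + 1)) ^ (q + 1) := by
      rw [hM, mul_pow]
    rw [mul_pow]
    calc (i + 2) * ((1 + K) ^ q * M ^ q) * (2 * i + 3) * M
        = (i + 2) * (2 * i + 3) * (1 + K) ^ q * M ^ (q + 1) := by ring
      _ = _ := by rw [h14]; ring
  rw [h13]
  exact mul_le_mul_of_nonneg_left h11 (by positivity)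

/-- Combable groups are fillable. -/
theorem IsCombing.fillable (hℓ : IsLength ℓ) (h : IsCombing ℓ σ) (n : ℕ) : Fillable ℓ n := by
  obtain ⟨C₀, p, hstop⟩ := h.stop
  obtain ⟨K₀, hstep⟩ := h.step
  choose κ' hnear using h.near
  set A := |C₀| with hA
  have hA0 : 0 ≤ A := abs_nonneg _
  have H : Cb ℓ σ (fun g => ⌈A * (1 + ℓ g) ^ p⌉₊) (max K₀ 0) (fun r => max (κ' r) 0) := by
    refine ⟨h.start, fun g t ht => hstop g t ?_, le_max_right _ _,
      fun t g => (hstep t g).trans (le_max_left _ _),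
      fun r t g h hr => (hnear r t g h hr).trans (le_max_left _ _), fun r => le_max_right _ _⟩
    have h1 : (0 : ℝ) ≤ (1 + ℓ g) ^ p := by have := hℓ.nonneg g; positivity
    have h2 : C₀ * (1 + ℓ g) ^ p ≤ A * (1 + ℓ g) ^ p :=
      mul_le_mul_of_nonneg_right (le_abs_self _) h1
    exact h2.trans ((Nat.le_ceil _).trans (by exact_mod_cast ht))
  set K := max K₀ 0 with hK
  set κ : ℝ → ℝ := fun r => max (κ' r) 0 with hκ
  have hK0 := H.K0
  intro δ hδ
  obtain ⟨C₁, hC₁, hexp⟩ := pow_le_exp (QQ p n) hδ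
  set C₂ : ℝ := (n + 2) * (2 * n + 3) * (1 + K) ^ QQ p n * (A + 2) ^ (QQ p n + 1) with hC₂
  have hC₂0 : 0 ≤ C₂ := by positivity
  have hone : ∀ g, 1 ≤ 1 + ℓ g := fun g => by linarith [hℓ.nonneg g]
  refine ⟨fun i g => (1 + ℓ g) ^ QQ p (n - i), rr κ K, C₁ + C₂, rr_nonneg H.κ0 hK0,
    fun i g => one_le_pow₀ (hone g), fun i g h => ?_, fun i hi x hx hd => ?_⟩
  · have h1 : 1 + ℓ (g * h) ≤ (1 + ℓ g) * (1 + ℓ h) := by
      have := hℓ.mul g h
      nlinarith [mul_nonneg (hℓ.nonneg g) (hℓ.nonneg h)]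
    have h0 : 0 ≤ 1 + ℓ (g * h) := by linarith [hone (g * h)]
    calc (1 + ℓ (g * h)) ^ QQ p (n - i) ≤ ((1 + ℓ g) * (1 + ℓ h)) ^ QQ p (n - i) := by gcongr
      _ = (1 + ℓ g) ^ QQ p (n - i) * (1 + ℓ h) ^ QQ p (n - i) := mul_pow _ _ _
      _ ≤ (1 + ℓ g) ^ QQ p n * (1 + ℓ h) ^ QQ p (n - i) := by
          refine mul_le_mul_of_nonneg_right (pow_le_pow_right₀ (hone g)
            (QQ_mono p (Nat.sub_le _ _))) ?_
          have := hone h
          positivity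
      _ ≤ (C₁ + C₂) * Real.exp (δ * ℓ g) * (1 + ℓ h) ^ QQ p (n - i) := by
          refine mul_le_mul_of_nonneg_right ((hexp _ (hℓ.nonneg g)).trans ?_) ?_
          · exact mul_le_mul_of_nonneg_right (by linarith) (Real.exp_pos _).le
          · have := hone h
            positivity
  · rw [isRips_iff] at hx
    rw [bd_eq] at hd
    refine ⟨fl σ (fun g => ⌈A * (1 + ℓ g) ^ p⌉₊) x, ?_, ?_, ?_⟩
    · rw [isRips_iff]
      refine map_mem _ (fun y hy => ?_) hx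
      rw [fl_single]
      exact H.mem_Rx hℓ (rr_nonneg H.κ0 hK0 i) hy
    · rw [bd_eq]
      exact d_fl H.start H.stop hd
    · rw [wnorm_eq, wnorm_eq, ← wn_mul]
      refine wn_map_le (vs_nonneg fun g => ?_) _ fun y _ => ?_
      · have := hone g
        positivity
      · rw [fl_single]
        have h1 := wn_fs_le H hℓ hA0 (fun g => le_rfl) (QQ p (n - (i + 1))) y
        have h2 : (p + 1) * (QQ p (n - (i + 1)) + 1) = QQ p (n - i) := by
          have h3 : n - i = n - (i + 1) + 1 := by omega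
          rw [h3]
          rfl
        rw [h2] at h1
        refine h1.trans ?_
        have h4 : 0 ≤ vs (fun g => (1 + ℓ g) ^ QQ p (n - i)) y := by
          refine vs_nonneg (fun g => ?_) y
          have := hone g
          positivity
        refine mul_le_mul_of_nonneg_right ?_ h4
        have h5 : QQ p (n - (i + 1)) ≤ QQ p n := QQ_mono p (Nat.sub_le _ _)
        have h6 : (i : ℝ) ≤ n := by exact_mod_cast hi.le
        have h7 : (1 : ℝ) ≤ 1 + K := by linarith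
        have h8 : (1 : ℝ) ≤ A + 2 := by linarith
        have h9 : (1 + K) ^ QQ p (n - (i + 1)) ≤ (1 + K) ^ QQ p n := pow_le_pow_right₀ h7 h5
        have h10 : (A + 2) ^ (QQ p (n - (i + 1)) + 1) ≤ (A + 2) ^ (QQ p n + 1) :=
          pow_le_pow_right₀ h8 (by omega)
        have h11 : ((i : ℝ) + 2) * (2 * i + 3) * (1 + K) ^ QQ p (n - (i + 1)) *
            (A + 2) ^ (QQ p (n - (i + 1)) + 1) ≤ C₂ := by
          rw [hC₂]
          gcongr
        linarith

end Pool.Agent.Lib.MP_df705a_gt.Comb
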