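import Pool.Agent.Lib.MP_df705a_gt.SV.Z5
import Pool.Agent.Lib.MP_df705a_gt.NV.F11
import Pool.Agent.Lib.MP_df705a_gt.Mg.G095
import Pool.Agent.Lib.MP_df705a_gt.Comb.A8

/-!
# Closed aspherical manifolds with fillable or combable fundamental groups
-/

open scoped Manifold ContDiff Topology
open MeasureTheory Filter Set

noncomputable section

namespace Pool.Agent.Lib.MP_df705a_gt.Comb

open Pool.Agent.Lib.MP_df705a_gt
open Pool.Agent.Lib.MP_df705a_gt.SVS

variable {n k m : ℕ} {M : Type*} {q : V (2 * m) → M} {s : V (2 * m) → V k}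
  {G : Type*} [Group G] [TopologicalSpace M] [ChartedSpace (V n) M]
  [IsManifold 𝓘(ℝ, V n) ∞ M] [CompactSpace M]

/-- No metric of positive scalar curvature when the group is fillable. -/
theorem main (H : Pin.StableCover (V n) q s) {a : Act G (2 * m)} (ha : Deck a q s)
    (ori : ∀ γ y, 0 < jdet (a.act γ) y) (e : n + k = 2 * m) {ℓ : G → ℝ} (hℓ : IsLength ℓ)
    (hfin : ∀ r, {γ | ℓ γ ≤ r}.Finite) (hF : Fillable ℓ n) (g : Metric (V n) M) :
    ¬ Twist.PosScal g := by
  intro hg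
  have haR := ha.toRL
  have : Countable G := SV.deck_countable H haR
  obtain ⟨hm, g', F, σ, hiso, hcut, hF', hσ, hscal⟩ := SV.deck_geo H haR
    (fun γ y => (ori γ y).trans_eq (jdet_eq (a.smooth γ) y).symm) g hg
  have hp : SV.IsProper a.toRL := SV.isProper_of_cutoffs hiso hF' hcut
  obtain ⟨χ, hχ, h0⟩ := SV.exists_isPU a.toRL hF' hp
  have hpart : IsPart a χ := ⟨hχ.smooth, hχ.supp, hχ.sum⟩
  obtain ⟨-, δ, hδ, hmain⟩ := SVS.main H ha ori g hg e hℓ
  obtain ⟨hfs, hA, -⟩ := hmain χ hpart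
  obtain ⟨c, hinv, hcoc, hne⟩ := NV.exists_cocycle H.smooth_q H.smooth_s
    H.cov.isLocalHomeomorph.isOpenMap H.surj H.bij e ha ori hp hpart h0
  exact hne (all_zero hℓ hfin hF hδ hfs hA hinv hcoc)

end Pool.Agent.Lib.MP_df705a_gt.Comb
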