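import Pool.Agent.Lib.MP_df705a_gt.Mg.G095

/-!
# Combable groups are fillable: the filling operator
-/

noncomputable section

namespace Pool.Agent.Lib.MP_df705a_gt.Comb

open Pool.Agent.Lib.MP_df705a_gt.SVS (IsLength)

variable {G : Type*} {k : ℕ}

lemma prism_congr {f f' g g' : G → G} {x : Fin k → G} (h : ∀ j, f (x j) = g (x j))
    (h' : ∀ j, f' (x j) = g' (x j)) :
    prism f f' k (Finsupp.single x 1) = prism g g' k (Finsupp.single x 1) := by
  induction k with
  | zero => rfl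
  | succ k ih =>
    rw [prism_single, prism_single, h 0,
      ih (x := Fin.tail x) (fun j => h j.succ) fun j => h' j.succ]
    have h1 : (fun j => f' (x j)) = fun j => g' (x j) := funext h'
    rw [h1]

variable [Group G]

/-- The largest stopping time of the vertices. -/
def sx (st : G → ℕ) (x : Fin k → G) : ℕ := Finset.univ.sup fun j => st (x j)

omit [Group G] in
lemma le_sx (st : G → ℕ) (x : Fin k → G) (j : Fin k) : st (x j) ≤ sx st x :=
  Finset.le_sup (f := fun j => st (x j)) (Finset.mem_univ j)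

/-- The filling of a simplex. -/
def fs (σ : ℕ → G → G) (st : G → ℕ) (x : Fin k → G) : C G (k + 1) :=
  ∑ t ∈ Finset.range (sx st x), (prism (σ t) (σ (t + 1)) k (Finsupp.single x 1) -
    prism (fun g => g) (fun g => g) k (Finsupp.single x 1)) +
  cone 1 (mp (fun _ => 1) (Finsupp.single x 1))

/-- The filling operator. -/
def fl (σ : ℕ → G → G) (st : G → ℕ) : C G k →ₗ[ℝ] C G (k + 1) :=
  Finsupp.linearCombination ℝ (fs σ st)

lemma fl_single (σ : ℕ → G → G) (st : G → ℕ) (x : Fin k → G) :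
    fl σ st (Finsupp.single x 1) = fs σ st x := by
  rw [fl, Finsupp.linearCombination_single, one_smul]

variable {σ : ℕ → G → G} {st : G → ℕ}

lemma fs_eq (hst : ∀ g t, st g ≤ t → σ t g = g) (x : Fin k → G) {T : ℕ} (hT : sx st x ≤ T) :
    fs σ st x = ∑ t ∈ Finset.range T, (prism (σ t) (σ (t + 1)) k (Finsupp.single x 1) -
      prism (fun g => g) (fun g => g) k (Finsupp.single x 1)) +
      cone 1 (mp (fun _ => 1) (Finsupp.single x 1)) := by
  rw [fs]
  congr 1
  refine Finset.sum_subset (Finset.range_subset_range.2 hT) fun t _ ht => ?_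
  rw [Finset.mem_range, not_lt] at ht
  rw [sub_eq_zero]
  exact prism_congr (fun j => hst _ _ ((le_sx st x j).trans ht))
    fun j => hst _ _ ((le_sx st x j).trans (ht.trans (Nat.le_succ t)))

lemma fl_eq (hst : ∀ g t, st g ≤ t → σ t g = g) (w : C G k) {T : ℕ}
    (hT : ∀ x ∈ w.support, sx st x ≤ T) :
    fl σ st w = ∑ t ∈ Finset.range T, (prism (σ t) (σ (t + 1)) k w -
      prism (fun g => g) (fun g => g) k w) + cone 1 (mp (fun _ => 1) w) := by
  set R : C G k →ₗ[ℝ] C G (k + 1) := ∑ t ∈ Finset.range T, (prism (σ t) (σ (t + 1)) k -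
      prism (fun g => g) (fun g => g) k) + cone 1 ∘ₗ mp (fun _ => 1) with hR
  have h1 : ∀ v, R v = ∑ t ∈ Finset.range T, (prism (σ t) (σ (t + 1)) k v -
      prism (fun g => g) (fun g => g) k v) + cone 1 (mp (fun _ => 1) v) := by
    intro v
    rw [hR, LinearMap.add_apply, LinearMap.sum_apply]
    rfl
  rw [← h1, map_eq_sum R w, map_eq_sum (fl σ st) w]
  refine Finset.sum_congr rfl fun x hx => ?_
  rw [h1, fl_single, fs_eq hst x (hT x hx)]

lemma d_fl (h0 : ∀ g, σ 0 g = 1) (hst : ∀ g t, st g ≤ t → σ t g = g) {w : C G (k + 1)}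
    (hw : d w = 0) : d (fl σ st w) = w := by
  set T := w.support.sup (fun x => sx st x) with hT
  have hT1 : ∀ x ∈ w.support, sx st x ≤ T := fun x hx =>
    Finset.le_sup (f := fun x => sx st x) hx
  rw [fl_eq hst w hT1, map_add, map_sum, d_cone, d_mp, hw, map_zero, map_zero, sub_zero]
  have h1 : ∀ t ∈ Finset.range T, d (prism (σ t) (σ (t + 1)) (k + 1) w -
      prism (fun g => g) (fun g => g) (k + 1) w) = mp (σ (t + 1)) w - mp (σ t) w := by
    intro t _
    rw [map_sub, d_prism, d_prism, hw, map_zero, sub_zero, map_zero, sub_zero, sub_self, sub_zero]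
  rw [Finset.sum_congr rfl h1, Finset.sum_range_sub (fun t => mp (σ t) w),
    mp_eq_self fun x hx j => hst _ _ ((le_sx st x j).trans (hT1 x hx))]
  have h2 : σ 0 = fun _ => (1 : G) := funext h0
  rw [h2, sub_add_cancel]

/-- A chain with the vertices at good points: general principle. -/
lemma fs_mem {P : Submodule ℝ (C G (k + 1))} {x : Fin k → G}
    (h1 : ∀ t, t + 1 ≤ sx st x → prism (σ t) (σ (t + 1)) k (Finsupp.single x 1) ∈ P)
    (h2 : prism (fun g => g) (fun g => g) k (Finsupp.single x 1) ∈ P)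
    (h3 : (Finsupp.single (fun _ => (1 : G)) 1 : C G (k + 1)) ∈ P) : fs σ st x ∈ P := by
  refine P.add_mem (P.sum_mem fun t ht => P.sub_mem (h1 t ?_) h2) ?_
  · rw [Finset.mem_range] at ht
    omega
  · rw [mp_single, cone_single]
    have : (Fin.cons 1 fun _ => 1 : Fin (k + 1) → G) = fun _ => 1 := by
      funext j
      refine Fin.cases ?_ (fun j => ?_) j
      · rw [Fin.cons_zero]
      · rw [Fin.cons_succ]
    rw [this]
    exact h3

lemma wn_fs_one (x : Fin k → G) :
    wn (fun _ => 1) (fs σ st x) ≤ 2 * k * sx st x + 1 := by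
  refine (wn_add_le (fun _ => zero_le_one) _ _).trans ?_
  have h1 : wn (fun _ => 1) (∑ t ∈ Finset.range (sx st x),
      (prism (σ t) (σ (t + 1)) k (Finsupp.single x 1) -
        prism (fun g => g) (fun g => g) k (Finsupp.single x 1))) ≤ 2 * k * sx st x := by
    refine (wn_sum_le (fun _ => zero_le_one) _ _).trans ?_
    refine (Finset.sum_le_sum (g := fun _ => (2 * k : ℝ)) fun t _ => ?_).trans ?_
    · refine (wn_sub_le (fun _ => zero_le_one) _ _).trans ?_
      have h2 := wn_prism_one (σ t) (σ (t + 1)) x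
      have h3 := wn_prism_one (fun g : G => g) (fun g => g) x
      linarith
    · rw [Finset.sum_const, Finset.card_range, nsmul_eq_mul]
      exact le_of_eq (by ring)
  have h2 : wn (fun _ => 1) (cone 1 (mp (fun _ => (1 : G)) (Finsupp.single x 1))) ≤ 1 := by
    refine (wn_cone_one _ _).trans ?_
    rw [mp_single, wn_single, abs_one, one_mul]
  linarith

/-- The constants of a combing. -/
structure Cb (ℓ : G → ℝ) (σ : ℕ → G → G) (st : G → ℕ) (K : ℝ) (κ : ℝ → ℝ) : Prop where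
  start : ∀ g, σ 0 g = 1
  stop : ∀ g t, st g ≤ t → σ t g = g
  K0 : 0 ≤ K
  step : ∀ t g, ℓ ((σ t g)⁻¹ * σ (t + 1) g) ≤ K
  near : ∀ r t g h, ℓ (g⁻¹ * h) ≤ r → ℓ ((σ t g)⁻¹ * σ t h) ≤ κ r
  κ0 : ∀ r, 0 ≤ κ r

variable {ℓ : G → ℝ} {K : ℝ} {κ : ℝ → ℝ}

lemma Cb.rad (H : Cb ℓ σ st K κ) (hℓ : IsLength ℓ) (t : ℕ) (g : G) : ℓ (σ t g) ≤ K * t := by
  induction t with
  | zero => rw [H.start, hℓ.one, Nat.cast_zero, mul_zero]
  | succ t ih =>
    have h1 := hℓ.mul (σ t g) ((σ t g)⁻¹ * σ (t + 1) g)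
    rw [mul_inv_cancel_left] at h1
    have h2 := H.step t g
    push_cast
    linarith

lemma Cb.mem_Rx (H : Cb ℓ σ st K κ) (hℓ : IsLength ℓ) {r : ℝ} (hr : 0 ≤ r) {x : Fin k → G}
    (hx : x ∈ Rx ℓ r k) :
    fs σ st x ∈ Finsupp.supported ℝ ℝ (Rx ℓ (κ r + K + r) (k + 1)) := by
  have hκ := H.κ0 r
  have hK := H.K0
  refine fs_mem (fun t _ => ?_) ?_ ?_
  · refine Finsupp.supported_mono ?_ (prism_mem _ _ x)
    intro y hy a b
    have key : ∀ i j, ℓ ((σ t (x i))⁻¹ * σ (t + 1) (x j)) ≤ κ r + K := by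
      intro i j
      have h1 := hℓ.mul ((σ t (x i))⁻¹ * σ t (x j)) ((σ t (x j))⁻¹ * σ (t + 1) (x j))
      have h2 : (σ t (x i))⁻¹ * σ t (x j) * ((σ t (x j))⁻¹ * σ (t + 1) (x j)) =
          (σ t (x i))⁻¹ * σ (t + 1) (x j) := by group
      rw [h2] at h1
      have h3 := H.near r t _ _ (hx i j)
      have h4 := H.step t (x j)
      linarith
    rcases hy a with ⟨i, hi⟩ | ⟨i, hi⟩ <;> rcases hy b with ⟨j, hj⟩ | ⟨j, hj⟩ <;> rw [hi, hj]
    · have := H.near r t _ _ (hx i j)
      linarith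
    · have := key i j
      linarith
    · have h5 := key j i
      rw [← hℓ.inv, mul_inv_rev, inv_inv] at h5
      linarith
    · have := H.near r (t + 1) _ _ (hx i j)
      linarith
  · refine Finsupp.supported_mono ?_ (prism_mem _ _ x)
    intro y hy a b
    rcases hy a with ⟨i, hi⟩ | ⟨i, hi⟩ <;> rcases hy b with ⟨j, hj⟩ | ⟨j, hj⟩ <;> rw [hi, hj] <;>
    · have := hx i j
      linarith
  · refine single_mem (fun a b => ?_) _
    rw [inv_mul_cancel, hℓ.one]
    linarith

lemma Cb.mem_ball (H : Cb ℓ σ st K κ) (hℓ : IsLength ℓ) {x : Fin k → G} {L : ℝ} (hL : 0 ≤ L)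
    (hx : ∀ j, ℓ (x j) ≤ L) :
    fs σ st x ∈ Finsupp.supported ℝ ℝ {y : Fin (k + 1) → G | ∀ j, ℓ (y j) ≤ K * sx st x + L} := by
  have hK := H.K0
  have hKs : 0 ≤ K * (sx st x : ℝ) := by positivity
  refine fs_mem (fun t ht => ?_) ?_ ?_
  · refine Finsupp.supported_mono ?_ (prism_mem _ _ x)
    intro y hy a
    have ht' : (t : ℝ) + 1 ≤ sx st x := by exact_mod_cast ht
    rcases hy a with ⟨i, hi⟩ | ⟨i, hi⟩ <;> rw [hi]
    · have h1 := H.rad hℓ t (x i)
      nlinarith
    · have h1 := H.rad hℓ (t + 1) (x i)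
      push_cast at h1
      nlinarith
  · refine Finsupp.supported_mono ?_ (prism_mem _ _ x)
    intro y hy a
    rcases hy a with ⟨i, hi⟩ | ⟨i, hi⟩ <;> rw [hi] <;>
    · have := hx i
      linarith
  · refine single_mem (fun a => ?_) _
    rw [hℓ.one]
    linarith

end Pool.Agent.Lib.MP_df705a_gt.Comb
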